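import Mathlib

/-! The decay number is at most twice the clique cover number, minus `l - 1`. -/

namespace Pool.Agent.Results.MP_efdca5_co.Bound

open SimpleGraph Finset

variable {V : Type}

/-- Any two distinct vertices are joined by `k` pairwise edge-disjoint paths. -/
def EdgeConn (G : SimpleGraph V) (k : ℕ) : Prop :=
  ∀ u v, u ≠ v → ∃ p : Fin k → G.Walk u v, (∀ i, (p i).IsPath) ∧
    ∀ i j, i ≠ j → (p i).edges.Disjoint (p j).edges

/-- `y_G(A) = 2 c(G - A) - |A| - 1`. -/
noncomputable def yA (G : SimpleGraph V) (A : Set (Sym2 V)) : ℤ :=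
  2 * Nat.card (G.deleteEdges A).ConnectedComponent - A.ncard - 1

lemma cut {ι : Type} [DecidableEq ι] [Fintype V] [Nonempty V] (G : SimpleGraph V)
    (hG : G.Preconnected) (φ : V → ι) (A : Finset (Sym2 V))
    (h : ∀ u v, G.Adj u v → φ u ≠ φ v → s(u, v) ∈ A) : (univ.image φ).card ≤ A.card + 1 := by
  let ψ := Set.rangeFactorization φ
  let H : SimpleGraph (Set.range φ) := fromRel fun a b => ∃ u v, G.Adj u v ∧ ψ u = a ∧ ψ v = b
  have r : ∀ u v, G.Reachable u v → H.Reachable (ψ u) (ψ v) := by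
    rintro u v ⟨p⟩
    induction p with
    | nil => rfl
    | @cons a b _ h _ ih =>
      by_cases e : ψ a = ψ b
      · rwa [e]
      · exact (Adj.reachable ((fromRel_adj _ _ _).2 ⟨e, Or.inl ⟨a, b, h, rfl, rfl⟩⟩)).trans ih
  have c : H.Connected := ⟨fun a b => by
    obtain ⟨u, rfl⟩ := Set.rangeFactorization_surjective a
    obtain ⟨v, rfl⟩ := Set.rangeFactorization_surjective b
    exact r u v (hG u v)⟩
  have h1 := c.card_vert_le_card_edgeSet_add_one
  have h2 : H.edgeSet ⊆ Sym2.map ψ '' A := by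
    rintro ⟨a, b⟩ hab
    obtain ⟨e, ⟨u, v, huv, rfl, rfl⟩ | ⟨u, v, huv, rfl, rfl⟩⟩ :=
      (fromRel_adj _ _ _).1 (show H.Adj a b from hab)
    · exact ⟨_, h u v huv fun e' => e (Subtype.ext e'), rfl⟩
    · exact ⟨_, h v u huv.symm fun e' => e (Subtype.ext e'), rfl⟩
  have h3 := (Set.ncard_le_ncard h2 (Set.toFinite _)).trans (Set.ncard_image_le (Set.toFinite _))
  rw [Nat.card_coe_set_eq, Nat.card_coe_set_eq] at h1
  rw [Set.ncard_coe_finset] at h3
  rw [← Set.ncard_coe_finset, coe_image, coe_univ, Set.image_univ]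
  omega

lemma cut2 {ι : Type} [DecidableEq ι] [Fintype V] [Nonempty V] (G : SimpleGraph V)
    (hG : EdgeConn G 2) (φ : V → ι) (A : Finset (Sym2 V))
    (h : ∀ u v, G.Adj u v → φ u ≠ φ v → s(u, v) ∈ A) : (univ.image φ).card ≤ max A.card 1 := by
  classical
  have p : ∀ e, (G.deleteEdges {e}).Preconnected := fun e u v => by
    rcases eq_or_ne u v with rfl | huv
    · rfl
    obtain ⟨p, -, hp⟩ := hG u v huv
    by_cases h0 : e ∈ (p 0).edges
    · exact ⟨(p 1).toDeleteEdges _ fun f hf hf' => hp 0 1 (by decide) h0 (hf' ▸ hf)⟩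
    · exact ⟨(p 0).toDeleteEdges _ fun f hf hf' => h0 (hf' ▸ hf)⟩
  rcases A.eq_empty_or_nonempty with rfl | ⟨e, he⟩
  · exact cut _ (p s(Classical.arbitrary V, Classical.arbitrary V)) φ ∅ fun u v a =>
      h u v (deleteEdges_adj.1 a).1
  · have := cut _ (p e) φ (A.erase e) fun u v a b =>
      mem_erase.2 ⟨(deleteEdges_adj.1 a).2, h u v (deleteEdges_adj.1 a).1 b⟩
    rw [card_erase_add_one he] at this
    omega

theorem result (V : Type) [Fintype V] [Nonempty V] (G : SimpleGraph V) (l : ℕ)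
    (hl : l = 1 ∨ l = 2) (h3 : IsEmpty (G ≃g cycleGraph 3)) (hG : EdgeConn G l)
    (A : Set (Sym2 V)) (hA : A ⊆ G.edgeSet) :
    yA G A ≤ 2 * (Gᶜ.chromaticNumber.toNat : ℤ) - l + 1 := by
  classical
  obtain ⟨A, rfl⟩ := (Set.toFinite A).exists_finset_coe
  obtain ⟨col⟩ := colorable_chromaticNumber_of_fintype Gᶜ
  generalize Gᶜ.chromaticNumber.toNat = k at col
  let comp := (G.deleteEdges A).connectedComponentMk
  let rep : (G.deleteEdges A).ConnectedComponent → V := Quot.out
  have cr : ∀ C, comp (rep C) = C := Quot.out_eq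
  let R := univ.image rep
  let φ := fun v => col (rep (comp v))
  let B := fun i => (R.filter (col · = i)).offDiag.image Sym2.mk.uncurry
  have adj : ∀ u v, u ≠ v → col u = col v → G.Adj u v := fun u v h1 h2 => by
    by_contra h; exact col.valid ((compl_adj _ _ _).2 ⟨h1, h⟩) h2
  have inA : ∀ u v, G.Adj u v → comp u ≠ comp v → s(u, v) ∈ A := fun u v h1 h2 => by
    by_contra h
    exact h2 (ConnectedComponent.connectedComponentMk_eq_of_adj (deleteEdges_adj.2 ⟨h1, h⟩))
  have mB : ∀ i u v, s(u, v) ∈ B i ↔ u ∈ R ∧ v ∈ R ∧ col u = i ∧ col v = i ∧ u ≠ v := by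
    intro i u v
    simp only [B, mem_image (s := offDiag _), mem_offDiag, mem_filter, Prod.exists,
      Function.uncurry, Sym2.eq_iff]
    grind
  have mR : ∀ u ∈ R, rep (comp u) = u := fun u hu => by
    obtain ⟨C, -, rfl⟩ := mem_image.1 hu
    rw [cr]
  let I := univ.image φ
  have BA : I.biUnion B ⊆ A := by
    rintro ⟨u, v⟩ h
    obtain ⟨i, -, h⟩ := mem_biUnion.1 h
    obtain ⟨h1, h2, h3, h4, h5⟩ := (mB i u v).1 h
    exact inA u v (adj u v h5 (h3.trans h4.symm)) fun e => h5 (by rw [← mR u h1, e, mR v h2])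
  have cB : (I.biUnion B).card = ∑ i ∈ I, ((R.filter (col · = i)).card).choose 2 := by
    rw [card_biUnion]
    · exact sum_congr rfl fun i _ => Sym2.card_image_offDiag _
    · intro i _ j _ hij
      rw [Function.onFun, Finset.disjoint_left]
      rintro ⟨u, v⟩ h1 h2
      exact hij (((mB i u v).1 h1).2.2.1.symm.trans ((mB j u v).1 h2).2.2.1)
  have cR : R.card = ∑ i ∈ I, (R.filter (col · = i)).card :=
    card_eq_sum_card_fiberwise fun u hu => mem_image.2 ⟨u, mem_univ _, by simp only [φ, mR u hu]⟩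
  have cC : Nat.card (G.deleteEdges A).ConnectedComponent = R.card := by
    rw [card_image_of_injective _ (Function.LeftInverse.injective cr), Nat.card_eq_fintype_card,
      card_univ]
  have ch : ∀ s : ℕ, 2 * s ≤ s.choose 2 + 3 ∧ (4 ≤ s → 2 * s ≤ s.choose 2 + 2) := by
    intro s
    induction s with
    | zero => simp
    | succ s ih =>
      rw [Nat.choose_succ_succ', Nat.choose_one_right]
      rcases (by omega : s = 0 ∨ s = 1 ∨ s = 2 ∨ s = 3 ∨ 4 ≤ s) with h | h | h | h | h
      iterate 4 subst h; decide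
      have := ih.2 h
      simp only [Nat.reduceAdd]
      omega
  have c1 : 2 * R.card ≤ (I.biUnion B).card + 3 * I.card := by
    rw [cR, cB, mul_sum, mul_comm 3, ← smul_eq_mul, ← sum_const, ← sum_add_distrib]
    exact sum_le_sum fun i _ => (ch _).1
  have c2 := card_sdiff_add_card_eq_card BA
  have c3 : I.card ≤ k := (card_le_univ _).trans (by simp)
  have cutA : ∀ u v, G.Adj u v → φ u ≠ φ v → s(u, v) ∈ A \ I.biUnion B := by
    intro u v h1 h2
    refine mem_sdiff.2 ⟨inA u v h1 fun e => h2 (by simp only [φ, e]), fun h => h2 ?_⟩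
    obtain ⟨i, -, h⟩ := mem_biUnion.1 h
    obtain ⟨h1, h2, h3, h4, -⟩ := (mB i u v).1 h
    simp only [φ, mR u h1, mR v h2, h3, h4]
  rw [yA, cC, Set.ncard_coe_finset]
  rcases hl with rfl | rfl
  · have := cut G (fun u v => by
      rcases eq_or_ne u v with rfl | huv
      · rfl
      · exact (hG u v huv).elim fun p _ => ⟨p 0⟩) φ _ cutA
    change I.card ≤ _ at this
    omega
  have c4 : I.card ≤ _ := cut2 G hG φ _ cutA
  have c5 : 0 < I.card := card_pos.2 (univ_nonempty.image _)
  by_cases hk : 2 ≤ k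
  · omega
  obtain rfl : k = 1 := by omega
  have c6 := cut2 G hG comp A inA
  rw [image_univ_of_surjective (Function.RightInverse.surjective cr), card_univ,
    ← Nat.card_eq_fintype_card, cC] at c6
  obtain ⟨i, hi⟩ := card_eq_one.1 (by omega : I.card = 1)
  rw [hi, sum_singleton] at cB cR
  rw [← cR] at cB
  have c7 := (ch R.card).2
  rw [hi] at c2 BA
  by_cases h4 : R.card = 3
  · have : R ≠ univ := fun e => h3.false (by
      rw [cycleGraph_three_eq_top, show G = ⊤ from
        eq_top_iff.2 fun u v h => adj u v h (Subsingleton.elim _ _)]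
      exact Iso.completeGraph (Fintype.equivFinOfCardEq (by rw [← card_univ, ← e, h4])))
    obtain ⟨w, hw⟩ : ∃ w, w ∉ R := by simpa [eq_univ_iff_forall] using this
    obtain ⟨r, h1, h2⟩ := exists_mem_ne (by omega : 1 < R.card) (rep (comp w))
    have : s(w, r) ∈ A \ ({i} : Finset _).biUnion B := by
      refine mem_sdiff.2 ⟨inA w r (adj _ _ (fun e => hw (e ▸ h1)) (Subsingleton.elim _ _))
        fun e => h2 (by rw [e, mR r h1]), fun h => ?_⟩
      rw [singleton_biUnion, mB] at h
      exact hw h.1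
    have := card_pos.2 ⟨_, this⟩
    rw [h4, show Nat.choose 3 2 = 3 from rfl] at cB
    omega
  · omega

end Pool.Agent.Results.MP_efdca5_co.Bound
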